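import Mathlib

namespace Pool.Agent.Results.MP_75022b_an.Counter

open Complex Filter
open scoped Real Nat

/-- Kummer's confluent hypergeometric function -/
noncomputable def M (a b z : ℂ) : ℂ :=
  ∑' k : ℕ, (ascPochhammer ℂ k).eval a / (ascPochhammer ℂ k).eval b * (z ^ k / k !)

/-- the normalising constant -/
noncomputable def C (L η : ℝ) : ℝ :=
  2 ^ L * Real.exp (-π * η / 2) * ‖Gamma (L + 1 + I * η)‖ / Real.Gamma (2 * L + 2)

/-- the regular Coulomb wave function -/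
noncomputable def F (L η ρ : ℝ) : ℂ :=
  (C L η * ρ ^ (L + 1) : ℝ) * exp (-I * ρ) * M (L + 1 - I * η) (2 * L + 2) (2 * I * ρ)

noncomputable def r (b η : ℝ) : ℕ → ℝ
  | 0 => 1
  | 1 => 2 * η / b
  | n + 2 => (2 * η * r b η (n + 1) - r b η n) / ((n + 2) * (n + 1 + b))

noncomputable def m (a b : ℂ) (k : ℕ) : ℂ :=
  (ascPochhammer ℂ k).eval a / (ascPochhammer ℂ k).eval b * ((2 * I) ^ k / k !)

theorem m_succ (a : ℂ) {b : ℝ} (hb : 0 < b) (k : ℕ) :
    m a b (k + 1) * ((k + 1) * (k + b)) = 2 * I * (k + a) * m a b k := by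
  have h1 : (b + k : ℂ) ≠ 0 := by exact_mod_cast (by positivity : b + k ≠ 0)
  have h2 : (k + 1 : ℂ) ≠ 0 := by exact_mod_cast (by positivity : k + 1 ≠ 0)
  have h3 : (k ! : ℂ) ≠ 0 := by exact_mod_cast k.factorial_ne_zero
  simp only [m, ascPochhammer_succ_eval, Nat.factorial_succ, div_mul_eq_div_div]
  push_cast
  field_simp
  ring

open PowerSeries in
theorem coef {b η : ℝ} (hb : 0 < b) (n : ℕ) :
    ∑ p ∈ Finset.HasAntidiagonal.antidiagonal n, (-I) ^ p.1 / (p.1.factorial : ℂ) * m (b / 2 - I * η) b p.2 = r b η n := by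
  let E : ℂ⟦X⟧ := PowerSeries.mk fun n => (-I) ^ n / (n.factorial : ℂ)
  let K : ℂ⟦X⟧ := PowerSeries.mk (m (b / 2 - I * η) b)
  have hE : d⁄dX ℂ E = PowerSeries.C (-I) * E := by
    ext n
    have h2 : (n + 1 : ℂ) ≠ 0 := by exact_mod_cast (by positivity : n + 1 ≠ 0)
    have h3 : (n ! : ℂ) ≠ 0 := by exact_mod_cast n.factorial_ne_zero
    simp only [E, coeff_derivative, coeff_mk, coeff_C_mul, Nat.factorial_succ]
    push_cast
    field_simp
    ring
  have hK : X * d⁄dX ℂ (d⁄dX ℂ K) + PowerSeries.C (b : ℂ) * d⁄dX ℂ K +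
      2 * (PowerSeries.C (-I) * (X * d⁄dX ℂ K)) + PowerSeries.C (-I) * (PowerSeries.C (b : ℂ) * K) -
      2 * (PowerSeries.C (η : ℂ) * K) = 0 := by
    ext n
    have h := m_succ (b / 2 - I * η) hb n
    rcases n with _ | n
    · simp only [two_mul, map_add, map_sub, coeff_C_mul, coeff_zero_X_mul, coeff_derivative,
        K, coeff_mk, map_zero] at h ⊢
      push_cast at h ⊢
      linear_combination h - 2 * η * m (b / 2 - I * η) b 0 * I_sq
    · simp only [two_mul, map_add, map_sub, coeff_C_mul, coeff_succ_X_mul, coeff_derivative,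
        K, coeff_mk, map_zero] at h ⊢
      push_cast at h ⊢
      linear_combination h - 2 * η * m (b / 2 - I * η) b (n + 1) * I_sq
  have hI : PowerSeries.C (-I) * PowerSeries.C (-I) = (-1 : ℂ⟦X⟧) := by
    rw [← map_mul]; simp
  have hG : X * d⁄dX ℂ (d⁄dX ℂ (E * K)) + PowerSeries.C (b : ℂ) * d⁄dX ℂ (E * K) + X * (E * K) -
      2 * (PowerSeries.C (η : ℂ) * (E * K)) = 0 := by
    simp only [Derivation.leibniz, smul_eq_mul, map_add, hE, derivative_C, mul_zero, add_zero]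
    linear_combination E * hK + X * E * K * hI
  have e : ∀ n, ∑ p ∈ Finset.HasAntidiagonal.antidiagonal n, (-I) ^ p.1 / (p.1.factorial : ℂ) * m (b / 2 - I * η) b p.2 =
      coeff n (E * K) := fun n => by simp [coeff_mul, E, K]
  rw [e]
  have hb' : (b : ℂ) ≠ 0 := by exact_mod_cast hb.ne'
  have g0 : coeff 0 (E * K) = 1 := by rw [← e]; simp [m]
  generalize E * K = G at hG g0
  induction n using Nat.twoStepInduction with
  | zero => simp [r, g0]
  | one =>
    have h := congrArg (coeff 0) hG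
    simp only [two_mul, map_add, map_sub, coeff_C_mul, coeff_zero_X_mul, coeff_derivative,
      map_zero, g0] at h
    simp only [r]
    push_cast at h ⊢
    rw [eq_div_iff hb']
    linear_combination h
  | more n h0 h1 =>
    have h := congrArg (coeff (n + 1)) hG
    simp only [two_mul, map_add, map_sub, coeff_C_mul, coeff_succ_X_mul, coeff_derivative,
      map_zero, h0, h1] at h
    have h2 : ((n + 2) * (n + 1 + b) : ℂ) ≠ 0 := by
      exact_mod_cast (by positivity : ((n + 2) * (n + 1 + b) : ℝ) ≠ 0)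
    simp only [r]
    push_cast at h ⊢
    rw [eq_div_iff h2]
    linear_combination h

theorem ser {b ρ : ℝ} (hb : 0 < b) (hb1 : b ≤ 1) (h0 : 0 ≤ ρ) (h1 : ρ ≤ 12 / 5) :
    exp (-I * ρ) * M (b / 2 - I * (1 / 20 : ℝ)) b (2 * I * ρ) =
      (∑' n, r b (1 / 20) n * ρ ^ n : ℝ) := by
  have e1 : M (b / 2 - I * (1 / 20 : ℝ)) b (2 * I * ρ) =
      ∑' k, m (b / 2 - I * (1 / 20 : ℝ)) b k * ρ ^ k := by
    refine tsum_congr fun k => ?_
    rw [m, mul_pow]; ring
  have s1 : Summable fun k => ‖m (b / 2 - I * (1 / 20 : ℝ)) b k * ρ ^ k‖ := by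
    refine summable_of_ratio_norm_eventually_le (r := 1 / 2) (by norm_num) ?_
    filter_upwards [eventually_ge_atTop 10] with k hk
    have hk' : (10 : ℝ) ≤ k := by exact_mod_cast hk
    have h := congrArg norm (m_succ (b / 2 - I * (1 / 20 : ℝ)) hb k)
    have n1 : ‖((k + 1) * (k + b) : ℂ)‖ = (k + 1) * (k + b) := by
      rw [← Real.norm_of_nonneg (by positivity : (0 : ℝ) ≤ (k + 1) * (k + b)), ← norm_real]
      push_cast; rfl
    have n2 : ‖(k + (b / 2 - I * (1 / 20 : ℝ)) : ℂ)‖ ≤ k + 1 := by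
      refine (norm_add_le _ _).trans (add_le_add (by simp) ((norm_sub_le _ _).trans ?_))
      simp [abs_of_pos hb]; linarith
    rw [norm_mul, n1, norm_mul, norm_mul, norm_mul, norm_I, Complex.norm_ofNat] at h
    simp only [norm_norm, norm_mul, norm_pow, norm_real, Real.norm_of_nonneg h0]
    generalize ‖m _ _ (k + 1)‖ = x at h
    have hy := norm_nonneg (m (b / 2 - I * (1 / 20 : ℝ)) b k)
    generalize ‖m _ _ k‖ = y at h hy
    have h3 : x * (k + b) ≤ 2 * y := by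
      refine le_of_mul_le_mul_right ?_ (by positivity : (0 : ℝ) < k + 1)
      nlinarith [mul_le_mul_of_nonneg_right n2 hy]
    have h4 : x * ρ ≤ 1 / 2 * y := by
      refine le_of_mul_le_mul_right ?_ (by positivity : (0 : ℝ) < k + b)
      nlinarith [mul_le_mul_of_nonneg_right h3 h0, mul_le_mul_of_nonneg_right h1 hy,
        mul_le_mul_of_nonneg_right hk' hy, mul_nonneg hb.le hy]
    rw [pow_succ]
    nlinarith [mul_le_mul_of_nonneg_right h4 (pow_nonneg h0 k)]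
  have e2 : exp (-I * ρ) = ∑' n : ℕ, (-I * ρ) ^ n / (n.factorial : ℂ) := by
    rw [Complex.exp_eq_exp_ℂ]
    exact (NormedSpace.expSeries_div_hasSum_exp (-I * ρ : ℂ)).tsum_eq.symm
  have s2 := NormedSpace.norm_expSeries_div_summable (-I * ρ : ℂ)
  rw [e1, e2, tsum_mul_tsum_eq_tsum_sum_antidiagonal_of_summable_norm s2 s1, ofReal_tsum]
  refine tsum_congr fun n => ?_
  rw [ofReal_mul, ofReal_pow, ← coef hb, Finset.sum_mul]
  refine Finset.sum_congr rfl fun p hp => ?_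
  rw [← Finset.HasAntidiagonal.mem_antidiagonal.1 hp, mul_pow]
  ring

theorem bd {b D : ℝ} (hb : 0 < b) (h8 : |r b (1 / 20) 8| ≤ D) (h9 : |r b (1 / 20) 9| ≤ D / 8)
    (k : ℕ) : |r b (1 / 20) (k + 8)| ≤ D / 8 ^ k := by
  have D0 : 0 ≤ D := (abs_nonneg _).trans h8
  induction k using Nat.twoStepInduction with
  | zero => simpa using h8
  | one => simpa using h9
  | more k h0 h1 =>
    rw [show k + 2 + 8 = k + 8 + 2 by ring, r, abs_div,
      abs_of_pos (a := _ * _) (by positivity), div_le_iff₀ (by positivity)]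
    rw [show k + 1 + 8 = k + 8 + 1 by ring] at h1
    refine (abs_sub _ _).trans ?_
    rw [abs_mul, abs_of_pos (a := 2 * (1 / 20 : ℝ)) (by norm_num)]
    have e0 : D / 8 ^ k = 64 * (D / 8 ^ (k + 2)) := by field_simp; ring
    have e1 : D / 8 ^ (k + 1) = 8 * (D / 8 ^ (k + 2)) := by field_simp; ring
    have p : 0 ≤ D / 8 ^ (k + 2) := by positivity
    have q : (90 : ℝ) ≤ (((k + 8 : ℕ) : ℝ) + 2) * (((k + 8 : ℕ) : ℝ) + 1 + b) := by
      push_cast
      have : (0 : ℝ) ≤ k := Nat.cast_nonneg k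
      nlinarith
    nlinarith [mul_le_mul_of_nonneg_left q p]

theorem tail {b D ρ : ℝ} (hb : 0 < b) (h8 : |r b (1 / 20) 8| ≤ D) (h9 : |r b (1 / 20) 9| ≤ D / 8)
    (h0 : 0 ≤ ρ) (h1 : ρ ≤ 12 / 5) (k : ℕ) :
    ‖r b (1 / 20) (k + 8) * ρ ^ (k + 8)‖ ≤ D * 1101 * (3 / 10) ^ k := by
  have D0 : 0 ≤ D := (abs_nonneg _).trans h8
  rw [norm_mul, norm_pow, Real.norm_of_nonneg h0]
  calc _ ≤ D / 8 ^ k * (12 / 5) ^ (k + 8) := by gcongr; exact bd hb h8 h9 k
    _ = D * (12 / 5) ^ 8 * (3 / 10) ^ k := by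
      rw [pow_add, show (12 / 5 : ℝ) ^ k = 8 ^ k * (3 / 10) ^ k by rw [← mul_pow]; norm_num]
      field_simp
    _ ≤ _ := by gcongr; norm_num

theorem geo (D : ℝ) : HasSum (fun k : ℕ => D * 1101 * (3 / 10 : ℝ) ^ k) (D * 1101 * (10 / 7)) := by
  have := (hasSum_geometric_of_lt_one (r := 3 / 10) (by norm_num) (by norm_num)).mul_left (D * 1101)
  norm_num at this ⊢
  exact this

theorem split {b D ρ : ℝ} (hb : 0 < b) (h8 : |r b (1 / 20) 8| ≤ D) (h9 : |r b (1 / 20) 9| ≤ D / 8)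
    (h0 : 0 ≤ ρ) (h1 : ρ ≤ 12 / 5) : ∑' n, r b (1 / 20) n * ρ ^ n =
    ∑ n ∈ Finset.range 8, r b (1 / 20) n * ρ ^ n + ∑' k, r b (1 / 20) (k + 8) * ρ ^ (k + 8) :=
  (((summable_nat_add_iff 8).1
    ((geo D).summable.of_norm_bounded (tail hb h8 h9 h0 h1))).sum_add_tsum_nat_add 8).symm

theorem hF {L ρ : ℝ} (hL : -1 < L) (hL1 : L ≤ -1 / 2) (h0 : 0 < ρ) (h1 : ρ ≤ 12 / 5) :
    F L (1 / 20) ρ = 0 ↔ ∑' n, r (2 * L + 2) (1 / 20) n * ρ ^ n = 0 := by
  have h := ser (b := 2 * L + 2) (by linarith) (by linarith) h0.le h1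
  have hC : C L (1 / 20) * ρ ^ (L + 1) ≠ 0 := by
    have a1 : 0 < ‖Gamma (L + 1 + I * (1 / 20 : ℝ))‖ :=
      norm_pos_iff.2 (Gamma_ne_zero_of_re_pos (by simp; linarith))
    have a2 := Real.Gamma_pos_of_pos (by linarith : 0 < 2 * L + 2)
    unfold C
    positivity
  rw [show (((2 * L + 2 : ℝ) : ℂ) / 2) = L + 1 by push_cast; ring,
    show (((2 * L + 2 : ℝ) : ℂ)) = 2 * L + 2 by push_cast; ring] at h
  rw [F, mul_assoc, h, mul_eq_zero, ofReal_eq_zero, ofReal_eq_zero, or_iff_right hC]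

theorem result : ∃ η L₁ L₂ s : ℝ, -1 < L₁ ∧ L₁ < L₂ ∧ 0 < s ∧ F L₂ η s = 0 ∧
    ∀ ρ, 0 < ρ → ρ ≤ s → F L₁ η ρ ≠ 0 := by
  have a8 : |r (2 / 5) (1 / 20) 8| ≤ 1 / 50000 := by simp only [r]; norm_num [abs_le]
  have a9 : |r (2 / 5) (1 / 20) 9| ≤ 1 / 50000 / 8 := by simp only [r]; norm_num [abs_le]
  have b8 : |r (1 / 100) (1 / 20) 8| ≤ 11 / 50000 := by simp only [r]; norm_num [abs_le]
  have b9 : |r (1 / 100) (1 / 20) 9| ≤ 11 / 50000 / 8 := by simp only [r]; norm_num [abs_le]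
  have hc : ContinuousOn (fun ρ : ℝ => ∑' n, r (2 / 5) (1 / 20) n * ρ ^ n) (Set.Icc 0 (12 / 5)) := by
    refine ContinuousOn.congr ?_ fun ρ h => split (by norm_num) a8 a9 h.1 h.2
    refine ContinuousOn.add (by fun_prop) (continuousOn_tsum (fun k => by fun_prop)
      (geo (1 / 50000)).summable fun k ρ h => tail (by norm_num) a8 a9 h.1 h.2 k)
  have v0 : ∑' n, r (2 / 5) (1 / 20) n * (0 : ℝ) ^ n = 1 := by
    rw [tsum_eq_single 0 fun n hn => by simp [hn]]; simp [r]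
  have v1 : ∑' n, r (2 / 5) (1 / 20) n * (12 / 5 : ℝ) ^ n ≤ 0 := by
    rw [split (by norm_num) a8 a9 (by norm_num) le_rfl]
    have := (abs_le.1 (tsum_of_norm_bounded (geo _)
      (tail (by norm_num) a8 a9 (by norm_num) le_rfl))).2
    have e : ∑ n ∈ Finset.range 8, r (2 / 5) (1 / 20) n * (12 / 5 : ℝ) ^ n ≤ -1 / 10 := by
      simp only [Finset.sum_range_succ, r]; norm_num
    linarith
  obtain ⟨s, hs, hs0⟩ := intermediate_value_Icc' (by norm_num) hc
    (show (0 : ℝ) ∈ _ from ⟨v1, by simp only [v0]; norm_num⟩)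
  have s0 : 0 < s := lt_of_le_of_ne hs.1 fun h => by
    subst h
    simp only [v0] at hs0
    norm_num at hs0
  refine ⟨1 / 20, -199 / 200, -4 / 5, s, by norm_num, by norm_num, s0, ?_, fun ρ h0 h1 => ?_⟩
  · rw [hF (by norm_num) (by norm_num) s0 hs.2, show 2 * (-4 / 5 : ℝ) + 2 = 2 / 5 by norm_num]
    exact hs0
  · have h2 := h1.trans hs.2
    rw [Ne, hF (by norm_num) (by norm_num) h0 h2,
      show 2 * (-199 / 200 : ℝ) + 2 = 1 / 100 by norm_num, split (by norm_num) b8 b9 h0.le h2]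
    have := (abs_le.1 (tsum_of_norm_bounded (geo _) (tail (by norm_num) b8 b9 h0.le h2))).1
    have e : 1 / 2 ≤ ∑ n ∈ Finset.range 8, r (1 / 100) (1 / 20) n * ρ ^ n := by
      simp only [Finset.sum_range_succ, r]
      norm_num
      have q2 : ρ ^ 2 ≤ 144 / 25 := by nlinarith
      have q3 := mul_le_mul_of_nonneg_left q2 h0.le
      have q4 : ρ ^ 4 ≤ (12 / 5) ^ 4 := by gcongr
      have q7 := mul_le_mul_of_nonneg_left q2 (pow_nonneg h0.le 5)
      have q5 := pow_nonneg h0.le 5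
      have q6 := pow_nonneg h0.le 6
      linarith
    linarith

end Pool.Agent.Results.MP_75022b_an.Counter
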